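import Mathlib

/-!
# The Lindelöf number of dense subspaces of monotonically normal spaces

If `X` is monotonically normal and `Y` is dense in `X`, then `l(X) ≤ l(Y)`.
-/

open Set Cardinal Order

universe u

namespace Pool.Agent.Results.MP_d81239_gt.DenseSubspace

/-- every open cover of `Z` has a subcover of cardinality at most `κ` -/
def CoverNumberLE (Z : Type u) [TopologicalSpace Z] (κ : Cardinal.{u}) : Prop :=
  ∀ 𝒰 : Set (Set Z), (∀ U ∈ 𝒰, IsOpen U) → ⋃₀ 𝒰 = Set.univ →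
    ∃ 𝒱 : Set (Set Z), 𝒱 ⊆ 𝒰 ∧ #𝒱 ≤ κ ∧ ⋃₀ 𝒱 = Set.univ

/-- The Lindelöf number `l(Z)`: the least infinite cardinal `κ` such that every open cover of `Z`
has a subcover of cardinality at most `κ`. -/
noncomputable def lindelofNumber (Z : Type u) [TopologicalSpace Z] : Cardinal.{u} :=
  sInf {κ : Cardinal.{u} | ℵ₀ ≤ κ ∧ CoverNumberLE Z κ}

/-- `X` is monotonically normal: it is `T₁` and there is an assignment `(x, U) ↦ H x U`, for `U`
open and `x ∈ U`, such that `H x U` is open, `x ∈ H x U ⊆ U`, and `H x U ∩ H y V ≠ ∅` implies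
`x ∈ V` or `y ∈ U`. -/
def MonotonicallyNormal (X : Type u) [TopologicalSpace X] : Prop :=
  T1Space X ∧ ∃ H : X → Set X → Set X,
    (∀ x U, IsOpen U → x ∈ U → IsOpen (H x U) ∧ x ∈ H x U ∧ H x U ⊆ U) ∧
    ∀ x U y V, IsOpen U → x ∈ U → IsOpen V → y ∈ V → (H x U ∩ H y V).Nonempty → x ∈ V ∨ y ∈ U

lemma lindelofNumber_spec (Z : Type u) [TopologicalSpace Z] :
    ℵ₀ ≤ lindelofNumber Z ∧ CoverNumberLE Z (lindelofNumber Z) := by
  have hne : {κ : Cardinal.{u} | ℵ₀ ≤ κ ∧ CoverNumberLE Z κ}.Nonempty := by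
    refine ⟨max ℵ₀ #(Set Z), le_max_left _ _, fun 𝒰 _ h => ⟨𝒰, subset_rfl, ?_, h⟩⟩
    exact (mk_set_le 𝒰).trans (le_max_right _ _)
  exact csInf_mem hne

section

variable {X : Type u} [TopologicalSpace X] [T1Space X] {H : X → Set X → Set X}
  (hH : ∀ x U, IsOpen U → x ∈ U → IsOpen (H x U) ∧ x ∈ H x U ∧ H x U ⊆ U)
  (hH2 : ∀ x U y V, IsOpen U → x ∈ U → IsOpen V → y ∈ V → (H x U ∩ H y V).Nonempty →
    x ∈ V ∨ y ∈ U)

include hH hH2 in
/-- A subset `F` of the closure of a set `Y₀` of size `≤ κ` is covered by `≤ κ` members of the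
family `U`. -/
lemma cover_closure {κ : Cardinal.{u}} (hκ : ℵ₀ ≤ κ) (Y₀ : Set X) (hY₀ : #Y₀ ≤ κ) (F : Set X)
    (hF : F ⊆ closure Y₀) (U : X → Set X) (hU : ∀ x, IsOpen (U x) ∧ x ∈ U x) :
    ∃ S : Set X, S ⊆ F ∧ #S ≤ κ ∧ F ⊆ ⋃ x ∈ S, U x := by
  classical
  by_contra hcon
  push Not at hcon
  -- the index set
  let I : Type u := (succ κ).ord.ToType
  have hI : #I = succ κ := mk_ord_toType _
  have hIio : ∀ i : I, #(Iio i) ≤ κ := by
    intro i
    have h := mk_Iio_lt i (by rw [hI]; exact (Ordinal.type_toType _).symm)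
    rw [hI] at h
    exact lt_succ_iff.mp h
  have hstep : ∀ S : Set X, #S ≤ κ → ∃ x ∈ F, ∀ s ∈ S, s ∈ F → x ∉ U s := by
    intro S hS
    have h1 := hcon (S ∩ F) inter_subset_right ((mk_le_mk_of_subset inter_subset_left).trans hS)
    rw [not_subset] at h1
    obtain ⟨x, hx, hx'⟩ := h1
    refine ⟨x, hx, fun s hs hsF hxs => hx' ?_⟩
    exact mem_iUnion₂.mpr ⟨s, ⟨hs, hsF⟩, hxs⟩
  -- the right separated sequence
  have hrec : ∃ x : I → X, ∀ i, x i ∈ F ∧ ∀ j < i, x i ∉ U (x j) := by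
    have hg : ∀ (i : I) (f : ∀ j : I, j < i → X), ∃ z : X, z ∈ F ∧
        ∀ (j : I) (hj : j < i), f j hj ∈ F → z ∉ U (f j hj) := by
      intro i f
      obtain ⟨z, hz, hz'⟩ := hstep (range fun j : Iio i => f j.1 j.2)
        ((mk_range_le).trans (hIio i))
      exact ⟨z, hz, fun j hj => hz' _ ⟨⟨j, hj⟩, rfl⟩⟩
    choose g hg using hg
    obtain ⟨x, hx⟩ : ∃ x : I → X, ∀ i, x i = g i fun j _ => x j :=
      ⟨WellFounded.fix (wellFounded_lt (α := I)) g, fun i => WellFounded.fix_eq _ _ _⟩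
    refine ⟨x, fun i => ⟨?_, fun j hj => ?_⟩⟩
    · rw [hx i]; exact (hg i _).1
    · have h1 := (hg i (fun j _ => x j)).2 j hj
        (by show x j ∈ F; rw [hx j]; exact (hg j _).1)
      rw [← hx i] at h1
      exact h1
  obtain ⟨x, hx⟩ := hrec
  have hne : ∀ i j : I, i < j → x j ∉ U (x i) := fun i j h => (hx j).2 i h
  let N : I → Set X := fun i => H (x i) (U (x i))
  have hN : ∀ i, IsOpen (N i) ∧ x i ∈ N i ∧ N i ⊆ U (x i) := fun i =>
    hH _ _ (hU _).1 (hU _).2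
  have hN2 : ∀ i, IsOpen (H (x i) (N i)) ∧ x i ∈ H (x i) (N i) ∧ H (x i) (N i) ⊆ N i := fun i =>
    hH _ _ (hN i).1 (hN i).2.1
  have hy : ∀ i, ∃ y : Y₀, (y : X) ∈ H (x i) (N i) := by
    intro i
    obtain ⟨y, hy1, hy2⟩ := mem_closure_iff.mp (hF (hx i).1) _ (hN2 i).1 (hN2 i).2.1
    exact ⟨⟨y, hy2⟩, hy1⟩
  choose y hy using hy
  obtain ⟨p, hp⟩ := infinite_pigeonhole_card y (succ κ) (by rw [hI]) (hκ.trans (le_succ κ))
    (by rw [(isRegular_succ hκ).cof_ord]; exact lt_succ_of_le hY₀)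
  set A : Set I := y ⁻¹' {p} with hA
  -- earlier points of `A` lie in later sets `N j`
  have hAN : ∀ i ∈ A, ∀ j ∈ A, i < j → x i ∈ N j := by
    intro i hi j hj hij
    have h1 : (H (x i) (N i) ∩ H (x j) (N j)).Nonempty := by
      refine ⟨p, ?_, ?_⟩
      · have := hy i; rwa [show y i = p from hi] at this
      · have := hy j; rwa [show y j = p from hj] at this
    rcases hH2 _ _ _ _ (hN i).1 (hN i).2.1 (hN j).1 (hN j).2.1 h1 with h | h
    · exact h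
    · exact absurd ((hN i).2.2 h) (hne i j hij)
  -- `A` is unbounded
  have hAunb : ∀ j : I, ∃ k ∈ A, j < k := by
    intro j
    by_contra hc
    push Not at hc
    have h1 : A ⊆ insert j (Iio j) := by
      intro k hk
      rcases (hc k hk).lt_or_eq with h | h
      · exact Or.inr h
      · exact Or.inl h
    have h2 : #A ≤ κ := by
      refine (mk_le_mk_of_subset h1).trans (mk_insert_le.trans ?_)
      exact (add_le_add (hIio j) (one_le_aleph0.trans hκ)).trans (add_eq_self hκ).le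
    exact absurd (hp.trans h2) (not_le.mpr (lt_succ κ))
  -- successors in `A`
  have hsucc : ∀ j : I, ∃ k ∈ A, j < k ∧ ∀ l ∈ A, j < l → k ≤ l := by
    intro j
    obtain ⟨k, hk1, hk2⟩ := hAunb j
    have hne' : {k | k ∈ A ∧ j < k}.Nonempty := ⟨k, hk1, hk2⟩
    refine ⟨(wellFounded_lt (α := I)).min _ hne', ((wellFounded_lt (α := I)).min_mem _ hne').1,
      ((wellFounded_lt (α := I)).min_mem _ hne').2, fun l hl hjl => ?_⟩
    exact not_lt.mp ((wellFounded_lt (α := I)).not_lt_min _ (show l ∈ {k | k ∈ A ∧ j < k} from ⟨hl, hjl⟩))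
  choose σ hσA hσlt hσmin using hsucc
  -- `x (σ j)` is not in the closure of `N j`
  have hcl : ∀ j, x (σ j) ∉ closure (N j) := by
    intro j hc
    have hxne : x (σ j) ≠ x j := by
      intro h
      apply hne j (σ j) (hσlt j)
      rw [h]; exact (hU _).2
    have h1 : IsOpen ({x j}ᶜ : Set X) := isOpen_compl_singleton
    have h2 := hH (x (σ j)) {x j}ᶜ h1 hxne
    obtain ⟨z, hz1, hz2⟩ := mem_closure_iff.mp hc _ h2.1 h2.2.1
    rcases hH2 _ _ _ _ h1 hxne (hU _).1 (hU _).2 ⟨z, hz1, hz2⟩ with h | h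
    · exact hne j (σ j) (hσlt j) h
    · exact h rfl
  let V : I → Set X := fun j => U (x (σ j)) \ closure (N j)
  have hV : ∀ j, IsOpen (V j) ∧ x (σ j) ∈ V j := fun j =>
    ⟨(hU _).1.sdiff isClosed_closure, (hU _).2, hcl j⟩
  have hdisj : ∀ i ∈ A, ∀ j ∈ A, i < j →
      ¬ (H (x (σ i)) (V i) ∩ H (x (σ j)) (V j)).Nonempty := by
    intro i hi j hj hij hne'
    have hσij : σ i ≤ j := hσmin i j hj hij
    rcases hH2 _ _ _ _ (hV i).1 (hV i).2 (hV j).1 (hV j).2 hne' with h | h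
    · rcases hσij.lt_or_eq with h' | h'
      · exact h.2 (subset_closure (hAN (σ i) (hσA i) j hj h'))
      · rw [h'] at h
        exact h.2 (subset_closure (hN j).2.1)
    · exact hne (σ i) (σ j) (hσij.trans_lt (hσlt j)) h.1
  have hz : ∀ j, ∃ z : Y₀, (z : X) ∈ H (x (σ j)) (V j) := by
    intro j
    have h1 := hH _ _ (hV j).1 (hV j).2
    obtain ⟨z, hz1, hz2⟩ := mem_closure_iff.mp (hF (hx (σ j)).1) _ h1.1 h1.2.1
    exact ⟨⟨z, hz2⟩, hz1⟩
  choose z hz using hz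
  have hinj : Function.Injective fun j : A => z j := by
    intro i j hij
    rcases lt_trichotomy (i : I) j with h | h | h
    · exact absurd ⟨_, hz i, by have := hz j; rwa [← show z i = z j from hij] at this⟩
        (hdisj i i.2 j j.2 h)
    · exact Subtype.ext h
    · exact absurd ⟨_, hz j, by have := hz i; rwa [show z i = z j from hij] at this⟩
        (hdisj j j.2 i i.2 h)
  exact absurd (hp.trans ((mk_le_of_injective hinj).trans hY₀)) (not_le.mpr (lt_succ κ))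

end

/-- If `X` is a monotonically normal space and `Y` is dense in `X`, then `l(X) ≤ l(Y)`. -/
theorem result (X : Type u) [TopologicalSpace X] (hX : MonotonicallyNormal X) (Y : Set X)
    (hY : Dense Y) : lindelofNumber X ≤ lindelofNumber Y := by
  classical
  obtain ⟨hT1, H, hH, hH2⟩ := hX
  obtain ⟨hκ, hcov⟩ := lindelofNumber_spec Y
  set κ := lindelofNumber Y with hκdef
  refine csInf_le' ⟨hκ, ?_⟩
  intro 𝒰 h𝒰 h𝒰c
  have hU : ∀ x : X, ∃ U ∈ 𝒰, x ∈ U := by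
    intro x
    have : x ∈ ⋃₀ 𝒰 := by rw [h𝒰c]; exact mem_univ _
    exact mem_sUnion.mp this
  choose U hU𝒰 hxU using hU
  have hUo : ∀ x, IsOpen (U x) ∧ x ∈ U x := fun x => ⟨h𝒰 _ (hU𝒰 x), hxU x⟩
  have hHU : ∀ x, IsOpen (H x (U x)) ∧ x ∈ H x (U x) ∧ H x (U x) ⊆ U x := fun x =>
    hH _ _ (hUo x).1 (hUo x).2
  -- a small subset `Y₀` of `Y`
  obtain ⟨𝒱, h𝒱, h𝒱κ, h𝒱c⟩ := hcov (range fun y : Y => ((↑) : Y → X) ⁻¹' H y (U y))
    (by rintro _ ⟨y, rfl⟩; exact (hHU y).1.preimage continuous_subtype_val)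
    (by
      rw [eq_univ_iff_forall]
      intro y
      exact ⟨_, ⟨y, rfl⟩, (hHU y).2.1⟩)
  choose q hq using h𝒱
  let Y₀ : Set X := range fun V : 𝒱 => (q V.2 : X)
  have hY₀ : #Y₀ ≤ κ := mk_range_le.trans h𝒱κ
  have hG : Y ⊆ ⋃ y ∈ Y₀, H y (U y) := by
    intro y hy
    have : (⟨y, hy⟩ : Y) ∈ ⋃₀ 𝒱 := by rw [h𝒱c]; exact mem_univ _
    obtain ⟨V, hV, hyV⟩ := mem_sUnion.mp this
    refine mem_iUnion₂.mpr ⟨_, ⟨⟨V, hV⟩, rfl⟩, ?_⟩
    have h1 := hq hV
    rw [← h1] at hyV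
    exact hyV
  let F : Set X := (⋃ y ∈ Y₀, U y)ᶜ
  have hF : F ⊆ closure Y₀ := by
    intro x hx
    rw [mem_closure_iff]
    intro O hO hxO
    have h1 := hH x O hO hxO
    obtain ⟨y, hyO, hyY⟩ := hY.inter_open_nonempty _ h1.1 ⟨x, h1.2.1⟩
    obtain ⟨y₀, hy₀, hyH⟩ := mem_iUnion₂.mp (hG hyY)
    rcases hH2 x O y₀ (U y₀) hO hxO (hUo y₀).1 (hUo y₀).2 ⟨y, hyO, hyH⟩ with h | h
    · exact absurd (mem_iUnion₂.mpr ⟨y₀, hy₀, h⟩) hx
    · exact ⟨y₀, h, hy₀⟩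
  obtain ⟨S, _, hSκ, hSc⟩ := cover_closure hH hH2 hκ Y₀ hY₀ F hF U hUo
  refine ⟨U '' (Y₀ ∪ S), ?_, ?_, ?_⟩
  · rintro _ ⟨x, _, rfl⟩; exact hU𝒰 x
  · refine mk_image_le.trans ((mk_union_le _ _).trans ?_)
    exact (add_le_add hY₀ hSκ).trans (add_eq_self hκ).le
  · rw [eq_univ_iff_forall]
    intro x
    by_cases hx : x ∈ ⋃ y ∈ Y₀, U y
    · obtain ⟨y, hy, hxy⟩ := mem_iUnion₂.mp hx
      exact ⟨_, ⟨y, Or.inl hy, rfl⟩, hxy⟩
    · obtain ⟨y, hy, hxy⟩ := mem_iUnion₂.mp (hSc hx)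
      exact ⟨_, ⟨y, Or.inr hy, rfl⟩, hxy⟩

end Pool.Agent.Results.MP_d81239_gt.DenseSubspace
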